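import Mathlib

set_option autoImplicit false

namespace Pool.Agent.Results.MP_b525e0_co.Vanishing

open Finset

/-- `u · σ` for the Pauli matrices -/
noncomputable def pauli (u : EuclideanSpace ℝ (Fin 3)) : Matrix (Fin 2) (Fin 2) ℂ :=
  (u 0 : ℂ) • !![0, 1; 1, 0] + (u 1 : ℂ) • !![0, -Complex.I; Complex.I, 0] +
    (u 2 : ℂ) • !![1, 0; 0, -1]

/-- the symplectic form on `ℂ²` -/
def omega (a b : Fin 2 → ℂ) : ℂ := a 0 * b 1 - a 1 * b 0

/-- `ψ` is a unit vector fixed by `u · σ`, where `u` is the direction of `y` -/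
def IsSpinor (y : EuclideanSpace ℝ (Fin 3)) (ψ : Fin 2 → ℂ) : Prop :=
  ‖ψ 0‖ ^ 2 + ‖ψ 1‖ ^ 2 = 1 ∧ (pauli (‖y‖⁻¹ • y)).mulVec ψ = ψ

open Classical in
/-- numerator of the amplitude, with `Δ` the set of darts `(i, j)` with `i < j` -/
noncomputable def numer {n : ℕ} (G : SimpleGraph (Fin n)) (ψ : G.Dart → Fin 2 → ℂ) : ℂ :=
  ∑ σ ∈ univ.filter (fun σ : Equiv.Perm G.Dart => ∀ d, (σ d).fst = d.fst),
    ∏ d ∈ univ.filter (fun d : G.Dart => d.fst < d.snd), omega (ψ (σ d)) (ψ (σ d.symm))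

open Classical in
/-- denominator of the amplitude -/
noncomputable def denom {n : ℕ} (G : SimpleGraph (Fin n)) (ψ : G.Dart → Fin 2 → ℂ) : ℂ :=
  ∏ d ∈ univ.filter (fun d : G.Dart => d.fst < d.snd), omega (ψ d) (ψ d.symm)

noncomputable def vec (a b : ℝ) : EuclideanSpace ℝ (Fin 3) := !₂[2 * a * b, 0, a ^ 2 - b ^ 2]

lemma pauli_vec (a b l : ℝ) (hl : 0 < l) (h : 0 < a ^ 2 + b ^ 2) (ψ : Fin 2 → ℂ) :
    (pauli (‖l • vec a b‖⁻¹ • (l • vec a b))).mulVec ψ = ψ ↔ a * ψ 1 = b * ψ 0 := by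
  have hn : ‖vec a b‖ = a ^ 2 + b ^ 2 := by
    rw [EuclideanSpace.norm_eq, Real.sqrt_eq_iff_mul_self_eq (by positivity) h.le]
    simp [vec, Fin.sum_univ_succ, mul_pow]
    ring
  have hr : ((a : ℂ) ^ 2 + (b : ℂ) ^ 2) ≠ 0 := by exact_mod_cast h.ne'
  have hl' : (l : ℂ) ≠ 0 := by exact_mod_cast hl.ne'
  rw [norm_smul, hn, Real.norm_eq_abs, abs_of_pos hl, funext_iff, Fin.forall_fin_two]
  simp only [pauli, vec, Matrix.mulVec, dotProduct, Fin.sum_univ_two]
  simp
  field_simp
  constructor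
  · rintro ⟨h1, h2⟩
    apply mul_left_cancel₀ hr
    linear_combination (b / 2 : ℂ) * h1 - (a / 2 : ℂ) * h2
  · intro h
    constructor
    · linear_combination (2 * b : ℂ) * h
    · linear_combination (-2 * a : ℂ) * h

lemma spinor_exists (a b l : ℝ) (hl : 0 < l) (h : 0 < a ^ 2 + b ^ 2) :
    ∃ ψ, IsSpinor (l • vec a b) ψ := by
  refine ⟨![((a / √(a ^ 2 + b ^ 2) : ℝ) : ℂ), ((b / √(a ^ 2 + b ^ 2) : ℝ) : ℂ)], ?_, ?_⟩
  · simp only [Matrix.cons_val_zero, Matrix.cons_val_one, Complex.norm_real, Real.norm_eq_abs,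
      sq_abs, div_pow, Real.sq_sqrt h.le]
    field_simp
  · rw [pauli_vec a b l hl h]
    simp
    ring

lemma spinor_prop (a b l : ℝ) (hl : 0 < l) (h : 0 < a ^ 2 + b ^ 2) (ψ : Fin 2 → ℂ)
    (hψ : IsSpinor (l • vec a b) ψ) : ∃ c : ℂ, c ≠ 0 ∧ ψ 0 = c * a ∧ ψ 1 = c * b := by
  obtain ⟨h1, h2⟩ := hψ
  rw [pauli_vec a b l hl h] at h2
  have hr : ((a : ℂ) ^ 2 + (b : ℂ) ^ 2) ≠ 0 := by exact_mod_cast h.ne'
  have e0 : ψ 0 = (a * ψ 0 + b * ψ 1) / (a ^ 2 + b ^ 2) * a := by
    field_simp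
    linear_combination (-b : ℂ) * h2
  have e1 : ψ 1 = (a * ψ 0 + b * ψ 1) / (a ^ 2 + b ^ 2) * b := by
    field_simp
    linear_combination (a : ℂ) * h2
  refine ⟨_, ?_, e0, e1⟩
  intro hc
  rw [hc, zero_mul] at e0 e1
  rw [e0, e1] at h1
  simp at h1

/-- two 5-cycles sharing the vertex 0 -/
def edges : List (ℕ × ℕ) :=
  [(0, 1), (1, 2), (2, 3), (3, 4), (4, 0), (0, 5), (5, 6), (6, 7), (7, 8), (8, 0)]

def G : SimpleGraph (Fin 9) where
  Adj i j := (edges.contains (i.val, j.val) || edges.contains (j.val, i.val)) = true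
  symm := ⟨by decide⟩
  loopless := ⟨by decide⟩

instance : DecidableRel G.Adj := fun i j =>
  inferInstanceAs (Decidable
    ((edges.contains (i.val, j.val) || edges.contains (j.val, i.val)) = true))

abbrev D := Fin 4 ⊕ (Fin 8 × Fin 2)

def fs : D → Fin 9
  | .inl _ => 0
  | .inr p => p.1.succ

def sn : D → Fin 9
  | .inl k => ![1, 4, 5, 8] k
  | .inr p => ![![0, 2], ![1, 3], ![2, 4], ![3, 0], ![0, 6], ![5, 7], ![6, 8], ![7, 0]] p.1 p.2

def sy : D → D
  | .inl k => ![.inr (0, 0), .inr (3, 1), .inr (4, 0), .inr (7, 1)] k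
  | .inr p => ![![.inl 0, .inr (1, 0)], ![.inr (0, 1), .inr (2, 0)], ![.inr (1, 1), .inr (3, 0)],
      ![.inr (2, 1), .inl 1], ![.inl 2, .inr (5, 0)], ![.inr (4, 1), .inr (6, 0)],
      ![.inr (5, 1), .inr (7, 0)], ![.inr (6, 1), .inl 3]] p.1 p.2

def base : D → ℤ × ℤ
  | .inl k => ![(2, 1), (3, 4), (4, -3), (-1, 2)] k
  | .inr p => ![![(-1, 2), (2, 3)], ![(-3, 2), (1, 0)], ![(0, 1), (1, 0)], ![(0, 1), (4, -3)],
      ![(3, 4), (1, 0)], ![(0, 1), (1, 0)], ![(0, 1), (2, 3)], ![(-3, 2), (2, 1)]] p.1 p.2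

def lam : D → ℕ
  | .inl k => ![3, 6, 6, 3] k
  | .inr p => ![![3, 11], ![11, 2], ![2, 2], ![2, 6], ![6, 2], ![2, 2], ![2, 11], ![11, 3]] p.1 p.2

def two : D → Bool
  | .inl k => decide (2 ≤ k.val)
  | .inr p => decide (4 ≤ p.1.val)

lemma adj_d : ∀ d, G.Adj (fs d) (sn d) := by decide

def dd (d : D) : G.Dart := ⟨(fs d, sn d), adj_d d⟩

lemma dd_bij : Function.Bijective dd := by
  constructor
  · have : ∀ d e, fs d = fs e → sn d = sn e → d = e := by decide
    intro d e h
    exact this d e (congrArg (fun x => x.fst) h) (congrArg (fun x => x.snd) h)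
  · have : ∀ i j, G.Adj i j → ∃ d, fs d = i ∧ sn d = j := by decide
    rintro ⟨⟨i, j⟩, h⟩
    obtain ⟨d, rfl, rfl⟩ := this i j h
    exact ⟨d, rfl⟩

lemma dd_sy (d : D) : (dd d).symm = dd (sy d) := by
  have : ∀ d, fs (sy d) = sn d ∧ sn (sy d) = fs d := by decide
  apply SimpleGraph.Dart.ext
  simp [dd, this d]

noncomputable def e : D ≃ G.Dart := Equiv.ofBijective dd dd_bij

abbrev T := Equiv.Perm (Fin 4) × (Fin 8 → Equiv.Perm (Fin 2))

def Phi (τ : T) : Equiv.Perm D := Equiv.sumCongr τ.1 (Equiv.prodCongrRight τ.2)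

lemma Phi_fs (τ : T) (d : D) : fs (Phi τ d) = fs d := by
  rcases d with k | ⟨v, b⟩ <;> rfl

lemma Phi_inj : Function.Injective Phi := by
  intro τ τ' h
  refine Prod.ext ?_ ?_
  · ext k
    have := congrArg (fun σ : Equiv.Perm D => σ (.inl k)) h
    simp only [Phi, Equiv.sumCongr_apply, Sum.map_inl, Sum.inl.injEq] at this
    rw [this]
  · ext v b
    have := congrArg (fun σ : Equiv.Perm D => σ (.inr (v, b))) h
    simp only [Phi, Equiv.sumCongr_apply, Sum.map_inr, Sum.inr.injEq,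
      Equiv.prodCongrRight_apply, Prod.mk.injEq, true_and] at this
    rw [this]

lemma Phi_surj (σ : Equiv.Perm D) (h : ∀ d, fs (σ d) = fs d) : ∃ τ, Phi τ = σ := by
  have h1 : ∀ k, ∃ k', σ (.inl k) = .inl k' := by
    intro k
    have := h (.inl k)
    rcases hσ : σ (.inl k) with k' | ⟨v, b⟩
    · exact ⟨k', rfl⟩
    · rw [hσ] at this
      exact absurd this (Fin.succ_ne_zero v)
  have h2 : ∀ v b, ∃ b', σ (.inr (v, b)) = .inr (v, b') := by
    intro v b
    have := h (.inr (v, b))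
    rcases hσ : σ (.inr (v, b)) with k' | ⟨v', b'⟩
    · rw [hσ] at this
      exact absurd this.symm (Fin.succ_ne_zero v)
    · rw [hσ] at this
      have : v' = v := Fin.succ_injective _ this
      exact ⟨b', by rw [this]⟩
  choose f hf using h1
  choose g hg using h2
  have fi : Function.Injective f := by
    intro a b hab
    have : σ (.inl a) = σ (.inl b) := by rw [hf, hf, hab]
    exact Sum.inl_injective (σ.injective this)
  have gi : ∀ v, Function.Injective (g v) := by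
    intro v a b hab
    have : σ (.inr (v, a)) = σ (.inr (v, b)) := by rw [hg, hg, hab]
    simpa using σ.injective this
  refine ⟨(Equiv.ofBijective f (Finite.injective_iff_bijective.mp fi),
    fun v => Equiv.ofBijective (g v) (Finite.injective_iff_bijective.mp (gi v))), ?_⟩
  ext d
  rcases d with k | ⟨v, b⟩
  · rw [hf]; rfl
  · rw [hg]; rfl

def om {R : Type} [CommRing R] (a b : R × R) : R := a.1 * b.2 - a.2 * b.1

def phi {R : Type} [CommRing R] (s : R) (d : D) : R × R :=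
  if two d then ((base d).1 - s * (base d).2, s * (base d).1 + (base d).2)
  else ((base d).1, (base d).2)

def Del : Finset D := univ.filter (fun d => fs d < sn d)

def num {R : Type} [CommRing R] (s : R) : R :=
  ∑ τ : T, ∏ d ∈ Del, om (phi s (Phi τ d)) (phi s (Phi τ (sy d)))

lemma map_phi {R S : Type} [CommRing R] [CommRing S] (f : R →+* S) (s : R) (d : D) :
    f (phi s d).1 = (phi (f s) d).1 ∧ f (phi s d).2 = (phi (f s) d).2 := by
  unfold phi
  split_ifs <;> simp

lemma map_num {R S : Type} [CommRing R] [CommRing S] (f : R →+* S) (s : R) :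
    f (num s) = num (f s) := by
  simp only [num, map_sum, map_prod, om, map_sub, map_mul, map_phi]

lemma prod_Del (g : D → ℤ) : ∏ d ∈ Del, g d =
    (g (.inl 0) * g (.inr (0, 1)) * g (.inr (1, 1)) * g (.inr (2, 1)) * g (.inl 1)) *
    (g (.inl 2) * g (.inr (4, 1)) * g (.inr (5, 1)) * g (.inr (6, 1)) * g (.inl 3)) := by
  have : Del = {.inl 0, .inr (0, 1), .inr (1, 1), .inr (2, 1), .inl 1, .inl 2, .inr (4, 1),
      .inr (5, 1), .inr (6, 1), .inl 3} := by decide
  rw [this, prod_insert (by decide), prod_insert (by decide), prod_insert (by decide),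
    prod_insert (by decide), prod_insert (by decide), prod_insert (by decide),
    prod_insert (by decide), prod_insert (by decide), prod_insert (by decide), prod_singleton]
  ring

def lp (s : ℤ) (x y : D) (v : Fin 4 → Fin 8) (a : Fin 4 → Equiv.Perm (Fin 2)) : ℤ :=
  om (phi s x) (phi s (.inr (v 0, a 0 0))) *
    om (phi s (.inr (v 0, a 0 1))) (phi s (.inr (v 1, a 1 0))) *
    om (phi s (.inr (v 1, a 1 1))) (phi s (.inr (v 2, a 2 0))) *
    om (phi s (.inr (v 2, a 2 1))) (phi s (.inr (v 3, a 3 0))) *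
    om (phi s y) (phi s (.inr (v 3, a 3 1)))

lemma num_eq (s : ℤ) : num s = ∑ t : Equiv.Perm (Fin 4),
    (∑ a, lp s (.inl (t 0)) (.inl (t 1)) ![0, 1, 2, 3] a) *
      (∑ a, lp s (.inl (t 2)) (.inl (t 3)) ![4, 5, 6, 7] a) := by
  unfold num
  rw [Fintype.sum_prod_type]
  refine sum_congr rfl fun t _ => ?_
  rw [sum_mul_sum, ← Equiv.sum_comp (Fin.appendEquiv 4 4), Fintype.sum_prod_type]
  refine sum_congr rfl fun a _ => sum_congr rfl fun b _ => ?_
  rw [prod_Del]
  rfl

lemma num0 : num (0 : ℤ) < 0 := by rw [num_eq]; decide +kernel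
lemma num1 : 0 < num (1 : ℤ) := by rw [num_eq]; decide +kernel

lemma exists_zero : ∃ s : ℝ, num s = 0 := by
  have hc : Continuous (fun s : ℝ => num s) := by
    have h1 : ∀ d, Continuous (fun s : ℝ => phi s d) := by
      intro d
      unfold phi
      split_ifs <;> fun_prop
    unfold num om
    fun_prop
  have h0 : num (0 : ℝ) < 0 := by
    have := map_num (Int.castRingHom ℝ) 0
    simp only [eq_intCast, Int.cast_zero] at this
    rw [← this]
    exact_mod_cast num0
  have h1 : 0 < num (1 : ℝ) := by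
    have := map_num (Int.castRingHom ℝ) 1
    simp only [eq_intCast, Int.cast_one] at this
    rw [← this]
    exact_mod_cast num1
  obtain ⟨s, -, hs⟩ := intermediate_value_Icc (zero_le_one' ℝ) hc.continuousOn ⟨h0.le, h1.le⟩
  exact ⟨s, hs⟩

/-- the configuration: the second cycle is rotated by a parameter `s` -/
noncomputable def pos (s : ℝ) (i : Fin 9) : EuclideanSpace ℝ (Fin 3) :=
  let z : ℝ := ![0, 9, -46, -44, -42, 42, 44, 46, -9] i
  let x : ℝ := ![0, 12, 144, 144, 144, -144, -144, -144, -12] i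
  if 5 ≤ i.val then !₂[(1 - s ^ 2) * x + 2 * s * z, 0, (1 - s ^ 2) * z - 2 * s * x]
  else !₂[x, 0, z]

lemma pos_sub (s : ℝ) (d : D) :
    pos s (sn d) - pos s (fs d) = (lam d : ℝ) • vec (phi s d).1 (phi s d).2 := by
  ext i
  rcases d with k | ⟨v, b⟩
  · fin_cases k <;> fin_cases i <;> simp [pos, sn, fs, lam, vec, phi, two, base] <;> ring
  · fin_cases v <;> fin_cases b <;> fin_cases i <;>
      simp [pos, sn, fs, lam, vec, phi, two, base] <;> ring

lemma lam_pos : ∀ d, 0 < lam d := by decide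

lemma base_pos : ∀ d, 0 < (base d).1 ^ 2 + (base d).2 ^ 2 := by decide

lemma phi_pos (s : ℝ) (d : D) : 0 < (phi s d).1 ^ 2 + (phi s d).2 ^ 2 := by
  have h : (0 : ℝ) < ((base d).1 : ℝ) ^ 2 + ((base d).2 : ℝ) ^ 2 := by exact_mod_cast base_pos d
  unfold phi
  split_ifs
  · have : 0 < (1 + s ^ 2) * (((base d).1 : ℝ) ^ 2 + ((base d).2 : ℝ) ^ 2) := by positivity
    nlinarith
  · exact h

lemma om_ne (s : ℝ) (d : D) : om (phi s d) (phi s (sy d)) ≠ 0 := by
  have h1 : ∀ d, two (sy d) = two d ∧ om (base d) (base (sy d)) ≠ 0 := by decide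
  have h2 : ((om (base d) (base (sy d)) : ℤ) : ℝ) ≠ 0 := by exact_mod_cast (h1 d).2
  unfold phi
  rw [(h1 d).1]
  unfold om at h2 ⊢
  push_cast at h2
  split_ifs
  · intro h
    apply mul_ne_zero (by positivity : (1 + s ^ 2) ≠ 0) h2
    linear_combination h
  · exact h2

lemma prod_pair (g : D → ℂ) : ∏ d ∈ Del, (g d * g (sy d)) = ∏ d, g d := by
  have h1 : ∀ d, sy (sy d) = d ∧ (fs (sy d) < sn (sy d) ↔ ¬ fs d < sn d) := by decide
  rw [prod_mul_distrib, ← prod_filter_mul_prod_filter_not univ (fun d => fs d < sn d)]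
  congr 1
  refine prod_nbij' sy sy ?_ ?_ ?_ ?_ ?_
  · intro d hd
    simp only [Del, mem_filter, mem_univ, true_and] at hd ⊢
    rw [(h1 d).2]; exact not_not.mpr hd
  · intro d hd
    simp only [Del, mem_filter, mem_univ, true_and] at hd ⊢
    exact (h1 d).2.mpr hd
  · exact fun d _ => (h1 d).1
  · exact fun d _ => (h1 d).1
  · exact fun d _ => rfl

lemma prod_dart (s : Finset G.Dart) (hs : ∀ d, d ∈ s ↔ d.fst < d.snd) (g : G.Dart → ℂ) :
    ∏ d ∈ s, g d = ∏ d ∈ Del, g (dd d) := by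
  symm
  refine prod_bij (fun d _ => dd d) ?_ ?_ ?_ (fun _ _ => rfl)
  · intro d hd
    rw [hs]
    exact (mem_filter.mp hd).2
  · exact fun a _ b _ h => dd_bij.1 h
  · intro d hd
    obtain ⟨a, rfl⟩ := dd_bij.2 d
    exact ⟨a, mem_filter.mpr ⟨mem_univ _, (hs _).mp hd⟩, rfl⟩

theorem result :
    ∃ (n : ℕ) (G : SimpleGraph (Fin n)) (x : Fin n → EuclideanSpace ℝ (Fin 3)),
      (∀ i j, G.Adj i j → x i ≠ x j) ∧
      (∃ ψ : G.Dart → Fin 2 → ℂ, ∀ d, IsSpinor (x d.snd - x d.fst) (ψ d)) ∧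
      ∀ ψ : G.Dart → Fin 2 → ℂ, (∀ d, IsSpinor (x d.snd - x d.fst) (ψ d)) →
        denom G ψ ≠ 0 ∧ numer G ψ / denom G ψ = 0 := by
  obtain ⟨s, hs⟩ := exists_zero
  have hl : ∀ d, (0 : ℝ) < lam d := fun d => by exact_mod_cast lam_pos d
  have hex : ∀ d : G.Dart, ∃ ψ, IsSpinor (pos s d.snd - pos s d.fst) ψ := by
    intro d
    obtain ⟨a, rfl⟩ := dd_bij.2 d
    have := spinor_exists _ _ _ (hl a) (phi_pos s a)
    rw [← pos_sub] at this
    exact this
  refine ⟨9, G, pos s, ?_, ?_, ?_⟩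
  · intro i j hij h
    obtain ⟨a, ha⟩ := dd_bij.2 ⟨(i, j), hij⟩
    have h1 := pos_sub s a
    have e1 : fs a = i := congrArg (fun x => x.fst) ha
    have e2 : sn a = j := congrArg (fun x => x.snd) ha
    rw [e1, e2, h, sub_self] at h1
    have h2 := congrArg (fun y : EuclideanSpace ℝ (Fin 3) => y 0) h1
    have h3 := congrArg (fun y : EuclideanSpace ℝ (Fin 3) => y 2) h1
    simp only [vec, PiLp.zero_apply, PiLp.smul_apply, smul_eq_mul] at h2 h3
    simp only [Matrix.cons_val_zero, Matrix.cons_val_two, Matrix.tail_cons, Matrix.head_cons,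
      zero_eq_mul, (hl a).ne', false_or] at h2 h3
    have h4 := phi_pos s a
    have h5 : ((phi s a).1 ^ 2 + (phi s a).2 ^ 2) ^ 2 = 0 := by
      linear_combination (2 * (phi s a).1 * (phi s a).2) * h2 +
        ((phi s a).1 ^ 2 - (phi s a).2 ^ 2) * h3
    exact absurd (pow_eq_zero_iff two_ne_zero |>.mp h5) h4.ne'
  · choose ψ hψ using hex
    exact ⟨ψ, hψ⟩
  · intro ψ hψ
    have hc : ∀ a : D, ∃ c : ℂ, c ≠ 0 ∧ ψ (dd a) 0 = c * (phi s a).1 ∧
        ψ (dd a) 1 = c * (phi s a).2 := by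
      intro a
      apply spinor_prop _ _ _ (hl a) (phi_pos s a)
      rw [← pos_sub]
      exact hψ (dd a)
    choose c hc0 hc1 hc2 using hc
    have hom : ∀ a b, omega (ψ (dd a)) (ψ (dd b)) =
        (c a * c b) * ((om (phi s a) (phi s b) : ℝ) : ℂ) := by
      intro a b
      simp only [omega, hc1, hc2, om]
      push_cast
      ring
    constructor
    · unfold denom
      rw [prod_dart _ (by simp), prod_ne_zero_iff]
      intro a _
      rw [dd_sy, hom]
      exact mul_ne_zero (mul_ne_zero (hc0 _) (hc0 _)) (by exact_mod_cast om_ne s a)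
    · have : numer G ψ = (∏ a, c a) * ((num s : ℝ) : ℂ) := by
        unfold numer num
        push_cast
        rw [mul_sum]
        symm
        refine sum_bij (fun τ _ => e.permCongr (Phi τ)) ?_ ?_ ?_ ?_
        · intro τ _
          simp only [mem_filter, mem_univ, true_and]
          intro d
          obtain ⟨a, rfl⟩ := e.surjective d
          simp only [Equiv.permCongr_apply, Equiv.symm_apply_apply]
          exact Phi_fs τ a
        · intro a _ b _ h
          exact Phi_inj (e.permCongr.injective h)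
        · intro σ hσ
          simp only [mem_filter, mem_univ, true_and] at hσ
          obtain ⟨τ, hτ⟩ := Phi_surj (e.permCongr.symm σ) (by
            intro d
            have h1 := hσ (e d)
            have h2 : ∀ y : G.Dart, fs (e.symm y) = y.fst := by
              intro y
              obtain ⟨a, rfl⟩ := e.surjective y
              rw [e.symm_apply_apply]; rfl
            simp only [Equiv.permCongr_symm, Equiv.permCongr_apply, Equiv.symm_symm]
            rw [h2, h1]; rfl)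
          exact ⟨τ, mem_univ _, by rw [hτ]; exact e.permCongr.apply_symm_apply σ⟩
        · intro τ _
          rw [prod_dart _ (by simp)]
          have h3 : ∀ a, (e.permCongr (Phi τ)) (dd a) = dd (Phi τ a) := by
            intro a
            have : e.symm (dd a) = a := e.symm_apply_apply a
            simp only [Equiv.permCongr_apply, this]
            rfl
          simp only [dd_sy, h3, hom]
          rw [prod_mul_distrib, prod_pair (fun a => c (Phi τ a)), Equiv.prod_comp (Phi τ) c]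
      rw [this, hs]
      simp

end Pool.Agent.Results.MP_b525e0_co.Vanishing
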